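import Pool.Agent.Run7.h909.T3.Stm

/-!
# Collapses: a subgraph such that each triangle has a distinguished top edge outside of the subgraph
-/

set_option autoImplicit false

namespace Run7.h192.T3

open SimpleGraph Run7.h909.TD Run7.h909.T3

/-- `M x y m`: the edge `{x, y}` is the top edge of the triangle `x, y, m` -/
structure Coll {V : Type} (T : SimpleGraph V) (F : Set (ℤ → V)) (Γ : SimpleGraph V)
    (M : V → V → V → Prop) (ρ : V → V → ℕ ×ₗ ℕ) : Prop where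
  le : Γ ≤ T
  d1 : ∀ x y m, M x y m → ρ x m < ρ x y
  d2 : ∀ x y m, M x y m → ρ m y < ρ x y
  a1 : ∀ x y m, M x y m → T.Adj x m
  a2 : ∀ x y m, M x y m → T.Adj m y
  ng : ∀ x y m, M x y m → ¬ Γ.Adj x y
  ex : ∀ x y, T.Adj x y → ¬ Γ.Adj x y → ∃ m, M x y m
  un : ∀ x y m m', M x y m → M x y m' → m = m'
  sy : ∀ x y m, M x y m → M y x m
  all : ∀ x y z, Tg F x y z → M x y z ∨ M y z x ∨ M z x y

open Classical in
/-- the extension of a function on the edges of `Γ` -/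
noncomputable def ext {V L : Type} [Group L] (Γ : SimpleGraph V) (M : V → V → V → Prop)
    (ρ : V → V → ℕ ×ₗ ℕ) (c : V → V → L) (x y : V) : L :=
  if h : ¬ Γ.Adj x y ∧ ∃ m, M x y m ∧ ρ x m < ρ x y ∧ ρ m y < ρ x y then
    ext Γ M ρ c x h.2.choose * ext Γ M ρ c h.2.choose y
  else c x y
termination_by ρ x y
decreasing_by
  · exact h.2.choose_spec.2.1
  · exact h.2.choose_spec.2.2

section

variable {V : Type} {T : SimpleGraph V} {F : Set (ℤ → V)} {Γ : SimpleGraph V}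
  {M : V → V → V → Prop} {ρ : V → V → ℕ ×ₗ ℕ}

theorem Coll.ext_top {L : Type} [Group L] (h : Coll T F Γ M ρ) (c : V → V → L) {x y m : V}
    (hm : M x y m) : ext Γ M ρ c x y = ext Γ M ρ c x m * ext Γ M ρ c m y := by
  have h1 : ¬ Γ.Adj x y ∧ ∃ m, M x y m ∧ ρ x m < ρ x y ∧ ρ m y < ρ x y :=
    ⟨h.ng x y m hm, m, hm, h.d1 x y m hm, h.d2 x y m hm⟩
  rw [ext, dif_pos h1, h.un x y _ m h1.2.choose_spec.1 hm]

theorem ext_tr {L : Type} [Group L] (c : V → V → L) {x y : V} (hxy : Γ.Adj x y) :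
    ext Γ M ρ c x y = c x y := by
  rw [ext, dif_neg]
  exact fun h => h.1 hxy

theorem Coll.ext_inv {L : Type} [Group L] (h : Coll T F Γ M ρ) (c : V → V → L)
    (hc : ∀ x y, Γ.Adj x y → c x y * c y x = 1) : ∀ (r : ℕ ×ₗ ℕ) (x y : V), ρ x y = r →
    T.Adj x y → ext Γ M ρ c x y * ext Γ M ρ c y x = 1 := by
  intro r
  induction r using WellFoundedLT.induction with
  | _ r IH =>
    intro x y hr hxy
    by_cases hg : Γ.Adj x y
    · rw [ext_tr c hg, ext_tr c hg.symm]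
      exact hc x y hg
    · obtain ⟨m, hm⟩ := h.ex x y hxy hg
      rw [h.ext_top c hm, h.ext_top c (h.sy _ _ _ hm)]
      have e1 := IH (ρ x m) (by rw [← hr]; exact h.d1 _ _ _ hm) x m rfl (h.a1 _ _ _ hm)
      have e2 := IH (ρ m y) (by rw [← hr]; exact h.d2 _ _ _ hm) m y rfl (h.a2 _ _ _ hm)
      calc ext Γ M ρ c x m * ext Γ M ρ c m y * (ext Γ M ρ c y m * ext Γ M ρ c m x)
          = ext Γ M ρ c x m * (ext Γ M ρ c m y * ext Γ M ρ c y m) * ext Γ M ρ c m x := by group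
        _ = 1 := by rw [e2, mul_one, e1]

theorem Coll.coc {L : Type} [Group L] (h : Coll T F Γ M ρ) (hT : Tri T F) (c : V → V → L)
    (hc : ∀ x y, Γ.Adj x y → c x y * c y x = 1) : Coc T F (ext Γ M ρ c) := by
  have hinv : ∀ x y, T.Adj x y → ext Γ M ρ c x y * ext Γ M ρ c y x = 1 :=
    fun x y hxy => h.ext_inv c hc _ x y rfl hxy
  refine ⟨hinv, ?_⟩
  intro φ hφ n hn
  have hn3 : n = 3 := hn.unique (hT.per φ hφ)
  subst hn3
  have hw : wrap (ext Γ M ρ c) φ 3 = ext Γ M ρ c (φ 0) (φ 1) * ext Γ M ρ c (φ 1) (φ 2) *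
      ext Γ M ρ c (φ 2) (φ 3) := by
    unfold wrap
    simp [List.range_succ]
    norm_num
    group
  have h30 : φ 3 = φ 0 := (hT.per φ hφ _ _).2 ⟨1, by norm_num⟩
  have b0 := hT.adj φ hφ 0
  have b1 := hT.adj φ hφ 1
  have b2 := hT.adj φ hφ 2
  norm_num at b0 b1 b2
  rw [h30] at b2
  rw [hw, h30]
  have i0 := hinv _ _ b0
  have i1 := hinv _ _ b1
  have i2 := hinv _ _ b2
  have j0 := hinv _ _ b0.symm
  have j1 := hinv _ _ b1.symm
  have j2 := hinv _ _ b2.symm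
  rcases h.all (φ 0) (φ 1) (φ 2) ⟨φ, hφ, rfl, rfl, rfl⟩ with hm | hm | hm
  · rw [h.ext_top c hm]
    calc ext Γ M ρ c (φ 0) (φ 2) * ext Γ M ρ c (φ 2) (φ 1) * ext Γ M ρ c (φ 1) (φ 2) *
          ext Γ M ρ c (φ 2) (φ 0)
        = ext Γ M ρ c (φ 0) (φ 2) * (ext Γ M ρ c (φ 2) (φ 1) * ext Γ M ρ c (φ 1) (φ 2)) *
          ext Γ M ρ c (φ 2) (φ 0) := by group
      _ = 1 := by rw [j1, mul_one, j2]
  · rw [h.ext_top c hm]
    calc ext Γ M ρ c (φ 0) (φ 1) * (ext Γ M ρ c (φ 1) (φ 0) * ext Γ M ρ c (φ 0) (φ 2)) *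
          ext Γ M ρ c (φ 2) (φ 0)
        = (ext Γ M ρ c (φ 0) (φ 1) * ext Γ M ρ c (φ 1) (φ 0)) *
          (ext Γ M ρ c (φ 0) (φ 2) * ext Γ M ρ c (φ 2) (φ 0)) := by group
      _ = 1 := by rw [i0, j2, mul_one]
  · rw [h.ext_top c hm]
    calc ext Γ M ρ c (φ 0) (φ 1) * ext Γ M ρ c (φ 1) (φ 2) *
          (ext Γ M ρ c (φ 2) (φ 1) * ext Γ M ρ c (φ 1) (φ 0))
        = ext Γ M ρ c (φ 0) (φ 1) * (ext Γ M ρ c (φ 1) (φ 2) * ext Γ M ρ c (φ 2) (φ 1)) *
          ext Γ M ρ c (φ 1) (φ 0) := by group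
      _ = 1 := by rw [i1, mul_one, i0]

theorem Coll.reach (h : Coll T F Γ M ρ) : ∀ (r : ℕ ×ₗ ℕ) (x y : V), ρ x y = r →
    T.Adj x y → Γ.Reachable x y := by
  intro r
  induction r using WellFoundedLT.induction with
  | _ r IH =>
    intro x y hr hxy
    by_cases hg : Γ.Adj x y
    · exact hg.reachable
    · obtain ⟨m, hm⟩ := h.ex x y hxy hg
      have e1 := IH (ρ x m) (by rw [← hr]; exact h.d1 _ _ _ hm) x m rfl (h.a1 _ _ _ hm)
      have e2 := IH (ρ m y) (by rw [← hr]; exact h.d2 _ _ _ hm) m y rfl (h.a2 _ _ _ hm)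
      exact e1.trans e2

theorem Coll.conn (h : Coll T F Γ M ρ) (hT : T.Connected) : Γ.Connected := by
  have hne := hT.nonempty
  refine ⟨fun x y => ?_⟩
  have hr := hT.preconnected x y
  rw [reachable_iff_reflTransGen] at hr
  induction hr with
  | refl => exact Reachable.refl _
  | @tail b d _ hbd ih => exact ih.trans (h.reach _ b d rfl hbd)

/-- **a collapse gives a tree** -/
theorem Coll.tree (h : Coll T F Γ M ρ) (hT : Tri T F) (hs : SC T F) : Γ.IsTree := by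
  refine Run7.h909.TT.tree_of_coc (h.conn hs.1) ?_
  intro c hc
  obtain ⟨f, hf⟩ := hs.2 _ _ (h.coc hT c hc)
  refine ⟨f, fun x y hxy => ?_⟩
  rw [← ext_tr (M := M) (ρ := ρ) c hxy]
  exact hf x y (h.le hxy)

end

end Run7.h192.T3
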