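import Pool.Agent.Run7.h192.T3.Low
import Pool.Agent.Run7.h192.T3.Coll
import Pool.Agent.Run7.h417.T3.QUOT

/-!
# Piece TREE of the project T3: the invariant tree
-/

set_option autoImplicit false

namespace Run7.h192.T3

open SimpleGraph Run7.h909.TD Run7.h909.T3
open Run7.h909.TT (Orb QT QF)
open Run7.h417.T3 (lift_edge lift_tg QT_adj)

section

variable {K V W : Type} [Group K] [MulAction K V] {T : SimpleGraph V} {F : Set (ℤ → V)}
  {q : V → W} {τ : V → ZMod 3}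

/-- strong edges of the quotient -/
def Sg (K : Type) [Group K] {V W : Type} [MulAction K V] (T : SimpleGraph V) (q : V → W)
    (a b : W) : Prop :=
  ∃ x y, T.Adj x y ∧ q x = a ∧ q y = b ∧ ∃ k : K, k ≠ 1 ∧ k • x = x ∧ k • y = y

theorem dat_qk (D : Dat K T F q τ) (k : K) (x : V) : q (k • x) = q x :=
  ((D.hq.eq _ _).2 ⟨k, rfl⟩).symm

theorem dat_lift (D : Dat K T F q τ) {x y : V} (hxy : T.Adj x y) (hs : Sg K T q (q x) (q y)) :
    ∃ k : K, k ≠ 1 ∧ k • x = x ∧ k • y = y := by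
  obtain ⟨x', y', h1, h2, h3, k, hk, h4, h5⟩ := hs
  obtain ⟨g, hg1, hg2⟩ := lift_edge D.nic D.ac D.hq h1 hxy h2 h3
  refine ⟨g * k * g⁻¹, ?_, ?_, ?_⟩
  · intro he
    apply hk
    have h6 : g * k = g := mul_inv_eq_one.1 he
    exact mul_eq_left.1 h6
  · rw [← hg1, mul_smul, mul_smul, inv_smul_smul, h4]
  · rw [← hg2, mul_smul, mul_smul, inv_smul_smul, h5]

theorem dat_tg (D : Dat K T F q τ) {x y z : V} (k : K) (h : Tg F x y z) :
    Tg F (k • x) (k • y) (k • z) := by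
  obtain ⟨φ, hφ, rfl, rfl, rfl⟩ := h
  exact ⟨_, D.ac.face k φ hφ, rfl, rfl, rfl⟩

theorem dat_four (D : Dat K T F q τ) (a b b' z : W) (h1 : Tg (QF F q) a b z)
    (h2 : Tg (QF F q) a b' z) (h3 : Sg K T q a b) (h4 : Sg K T q a b')
    (h5 : ¬ Sg K T q a z) : b = b' := by
  obtain ⟨x, y, e1, rfl, rfl, k, hk, e2, e3⟩ := h3
  obtain ⟨ζ, rfl, e4⟩ := lift_tg D.tri D.ac D.hq D.nic e1 h1
  obtain ⟨y', rfl, e5⟩ := lift_tg D.tri D.ac D.hq D.nic (tg_13 D.tri e4) (tg_sw D.tri' h2)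
  obtain ⟨k1, hk1, e6, e7⟩ := dat_lift D (tg_13 D.tri e5) h4
  have e8 : k • y' = y' := D.fx x y' (tg_13 D.tri e5) ⟨k1, hk1, e6, e7⟩ k e2
  have e9 := dat_tg D k e4
  have e10 := dat_tg D k e5
  rw [e2, e3] at e9
  rw [e2, e8] at e10
  rcases D.tri.g4 x y ζ y' (k • ζ) e4 e5 (tg_sw D.tri e10) (tg_sw D.tri e9) with h | h
  · rw [h]
  · exact (h5 ⟨x, ζ, tg_13 D.tri e4, rfl, rfl, k, hk, e2, h.symm⟩).elim

theorem dat_tr (D : Dat K T F q τ) (a b c : W) (h1 : Tg (QF F q) a b c) (h2 : Sg K T q a b)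
    (h3 : Sg K T q b c) : Sg K T q a c := by
  obtain ⟨x, y, e1, rfl, rfl, k, hk, e2, e3⟩ := h2
  obtain ⟨m, rfl, e4⟩ := lift_tg D.tri D.ac D.hq D.nic e1 h1
  obtain ⟨k1, hk1, e6, e7⟩ := dat_lift D (tg_23 D.tri e4) h3
  exact ⟨x, m, tg_13 D.tri e4, rfl, rfl, k, hk, e2, D.fx y m (tg_23 D.tri e4)
    ⟨k1, hk1, e6, e7⟩ k e3⟩

theorem dat_typ (D : Dat K T F q τ) : ∃ t : W → ZMod 3, ∀ x, t (q x) = τ x := by
  refine ⟨fun w => τ (Function.surjInv D.hq.surj w), fun x => ?_⟩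
  obtain ⟨k, hk⟩ := (D.hq.eq _ _).1 (Function.surjInv_eq D.hq.surj (q x))
  have h1 := D.ty k (Function.surjInv D.hq.surj (q x))
  rw [hk] at h1
  exact h1.symm

theorem dat_wd (D : Dat K T F q τ) {t : W → ZMod 3} (ht : ∀ x, t (q x) = τ x) {o : W}
    {ℓ : W → ℕ} (hl : Lv (QT T q) (QF F q) o ℓ) :
    WD (QT T q) (QF F q) o ℓ t (Sg K T q) := by
  refine ⟨D.tri', hl, ?_, ?_, dat_four D, dat_tr D⟩
  · intro a b hab
    obtain ⟨x, y, h1, rfl, rfl⟩ := (QT_adj D.nic D.hq).1 hab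
    rw [ht, ht]
    exact D.tn x y h1
  · rintro a b ⟨x, y, h1, h2, h3, k, hk, h4, h5⟩
    exact ⟨y, x, h1.symm, h3, h2, k, hk, h5, h4⟩

/-- the triangle over a triangle -/
theorem dat_uniq (D : Dat K T F q τ) {x y m m' : V} (h1 : Tg F x y m) (h2 : Tg F x y m')
    (hq : q m = q m') (hs : Sg K T q (q x) (q y) → Sg K T q (q x) (q m) ∨ Sg K T q (q y) (q m)) :
    m = m' := by
  obtain ⟨k, rfl⟩ := (D.hq.eq _ _).1 hq
  rcases D.nic.nb k x m (tg_13 D.tri h1) (tg_13 D.tri h2) with h3 | h3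
  · rcases D.nic.cor k x y m h1 h2 h3 with h4 | h4
    · by_cases hk : k = 1
      · rw [hk, one_smul]
      · rcases hs ⟨x, y, tg_12 D.tri h1, rfl, rfl, k, hk, h3, h4⟩ with h5 | h5
        · exact (D.fx x m (tg_13 D.tri h1) (dat_lift D (tg_13 D.tri h1) h5) k h3).symm
        · exact (D.fx y m (tg_23 D.tri h1) (dat_lift D (tg_23 D.tri h1) h5) k h4).symm
    · exact h4.symm
  · exact h3.symm

end

/-- **the invariant tree** -/
theorem t_TREE (hP : S_PATH) : S_TREE := by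
  intro K V W _ _ T F q τ D
  obtain ⟨v0⟩ := D.sc.1.nonempty
  obtain ⟨ℓ, hl⟩ := hP W (QT T q) (QF F q) D.tri' D.sc' (q v0)
  obtain ⟨t, ht⟩ := dat_typ D
  have E := dat_wd D ht hl
  obtain ⟨d, hd⟩ := exists_ch (QT T q) ℓ (Sg K T q)
  have hTE : ∀ {a b : W}, TE (QT T q) (QF F q) ℓ t (Sg K T q) d a b →
      TE (QT T q) (QF F q) ℓ t (Sg K T q) d b a := fun h => TE.symm h
  let Γ : SimpleGraph V :=
    { Adj := fun x y => T.Adj x y ∧ TE (QT T q) (QF F q) ℓ t (Sg K T q) d (q x) (q y)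
      symm := ⟨fun x y h => ⟨h.1.symm, hTE h.2⟩⟩
      loopless := ⟨fun x h => T.loopless.irrefl x h.1⟩ }
  have tgq : ∀ {x y z : V}, Tg F x y z → Tg (QF F q) (q x) (q y) (q z) := by
    rintro x y z ⟨φ, hφ, rfl, rfl, rfl⟩
    exact ⟨_, ⟨φ, hφ, rfl⟩, rfl, rfl, rfl⟩
  have hadj : ∀ {x y : V}, T.Adj x y → (QT T q).Adj (q x) (q y) := fun h =>
    (QT_adj D.nic D.hq).2 ⟨_, _, h, rfl, rfl⟩
  have hC : Coll T F Γ
      (fun x y m => Tg F x y m ∧ Top (QT T q) (QF F q) ℓ t (Sg K T q) d (q x) (q y) (q m))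
      (fun x y => rk (QT T q) (QF F q) ℓ t (Sg K T q) d (q x) (q y)) := by
    constructor
    · exact fun x y h => h.1
    · exact fun x y m h => (E.rk_top h.2).1
    · exact fun x y m h => (E.rk_top h.2).2
    · exact fun x y m h => tg_13 D.tri h.1
    · exact fun x y m h => (tg_23 D.tri h.1).symm
    · exact fun x y m h h' => h.2.2.1 h'.2
    · intro x y hxy hn
      have h1 : ¬ TE (QT T q) (QF F q) ℓ t (Sg K T q) d (q x) (q y) := fun h => hn ⟨hxy, h⟩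
      obtain ⟨c, hc⟩ := E.ex hd (hadj hxy) h1
      obtain ⟨m, rfl, hm⟩ := lift_tg D.tri D.ac D.hq D.nic hxy hc.1
      exact ⟨m, hm, hc⟩
    · rintro x y m m' ⟨h1, h2⟩ ⟨h3, h4⟩
      exact dat_uniq D h1 h3 (E.top_uniq h2 h4) (E.top_sg hd h2)
    · rintro x y m ⟨h1, h2⟩
      exact ⟨tg_sw D.tri (tg_rot D.tri h1), E.top_symm h2⟩
    · intro x y z h
      have hr := tg_rot D.tri h
      rcases E.all hd (tgq h) with h1 | h1 | h1
      · exact Or.inl ⟨h, h1⟩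
      · exact Or.inr (Or.inl ⟨hr, h1⟩)
      · exact Or.inr (Or.inr ⟨tg_rot D.tri hr, h1⟩)
  refine ⟨Γ, hC.tree D.tri D.sc, hC.le, ?_⟩
  rintro k u v ⟨h1, h2⟩
  refine ⟨D.ac.adj k u v h1, ?_⟩
  rw [dat_qk D, dat_qk D]
  exact h2

end Run7.h192.T3
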