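import Pool.Agent.Run7.h192.T3.MAIN2
import Pool.Agent.Run7.h417.T3.QUOT
import Pool.Agent.Run7.h983.T3.NUM2
import Pool.Agent.Run7.h352.T3.NICE
import Pool.Agent.Run7.h993.T3.SUB

/-!
# Piece MAIN2 of the project T3: only the tree is missing
-/

set_option autoImplicit false

namespace Run7.h192.T3

open SimpleGraph Run7.h909.TD Run7.h909.T3
open Pool.Agent.Y110.FJ (ClosedE)
open Pool.Agent.R684.FP (FbC)

/-- **the theorem on triangle complexes, from TREE** -/
theorem t_MAIN2 (hT : S_TREE) {C : ∀ (G : Type) [Group G], Prop} (hC : ClosedE C) (hF : FbC C)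
    (hcat : CatC C) {G V : Type} [Group G] [MulAction G V] {T : SimpleGraph V} {F : Set (ℤ → V)}
    {τ : V → ZMod 3} (h : Tri T F) (hs : SC T F) (hA : Ac G T F)
    (ht : ∀ (g : G) (x : V), τ (g • x) = τ x) (hn : ∀ x y, T.Adj x y → τ x ≠ τ y)
    (hd : ∀ x : V, ∃ (P : Type) (_ : Group P) (f : G →* P), C P ∧
      ∀ g : G, g • x = x → f g = 1 → g = 1) : C G :=
  main2 Run7.h417.T3.t_QUOT Run7.h417.T3.t_NUM1 Run7.h983.T3.t_NUM2 Run7.h352.T3.t_NICE t_SUB hT
    hC hF hcat h hs hA ht hn hd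

end Run7.h192.T3
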