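import Pool.Agent.Run7.h192.T3.All
import Pool.Agent.Run7.h579.T3.FINAL
import Pool.Agent.Run7.h909.GT.Fin

/-!
# Project T3 (helper909): `GL_3`, the case of noetherian domains over fields

Copy of `Pool/Agent/Run7/h909/GT/Fin.lean` (helper909) for `GL_3`.
-/

set_option autoImplicit false

open Pool.Agent.Y110.FJ (ClosedE)
open Pool.Agent.R684.FP (FbC)

namespace Run7.h192.T3

open Run7.h909.GT Run7.h909.TD Run7.h909.T3 Run7.h579.T3

variable {C : ∀ (G : Type) [Group G], Prop}

theorem tri2 (hC : ClosedE C) (hF : FbC C) (hcat : CatC C) : Tri2 C :=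
  fun _ _ _ _ _ _ _ h hs hA ht hn hd => triangles hC hF hcat h hs hA ht hn hd

/-- **noetherian domains with finite dimensional pieces** -/
theorem fin_mem3 (hC : ClosedE C) (hF : FbC C) (hcat : CatC C)
    (hsol : ∀ (S : Type) [Group S], Group.IsSolvable S → C S)
    (K : Type) {A : Type} [Field K] [CommRing A] [IsDomain A] [IsNoetherianRing A] [Algebra K A]
    {deg : A → WithBot ℤ} (h : IsDeg deg) (h0 : ∀ x, x ≠ 0 → 0 ≤ deg x)
    (hfd : ∀ n : ℕ, ∃ V : Submodule K A, FiniteDimensional K V ∧ ∀ x, deg x ≤ n → x ∈ V)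
    (J : Ideal A) (hJ1 : J ≠ ⊤) (hJ : C (GL (Fin 3) (A ⧸ J))) : C (GL (Fin 3) A) := by
  refine ring_mem3 hC hsol (tri2 hC hF hcat) h h0 J hJ fun n => ?_
  obtain ⟨V, hV, hVn⟩ := hfd n
  obtain ⟨F, hF⟩ : ∃ F : ℕ →o (Submodule K V)ᵒᵈ, ∀ k, F k = OrderDual.toDual
      (((J ^ k).restrictScalars K).comap V.subtype) :=
    ⟨⟨fun k => OrderDual.toDual (((J ^ k).restrictScalars K).comap V.subtype), fun a b hab => by
      show ((J ^ b).restrictScalars K).comap V.subtype ≤ ((J ^ a).restrictScalars K).comap V.subtype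
      intro x hx
      exact Ideal.pow_le_pow_right hab hx⟩, fun k => rfl⟩
  obtain ⟨k, hk⟩ := IsArtinian.monotone_stabilizes F
  refine ⟨k, fun x hx hd => ?_⟩
  have h1 : ∀ m, x ∈ J ^ m := by
    intro m
    by_cases hm : k ≤ m
    · have h2 := hk m hm
      rw [hF, hF] at h2
      have h3 : (⟨x, hVn x hd⟩ : V) ∈ ((J ^ k).restrictScalars K).comap V.subtype := hx
      have h4 : ((J ^ k).restrictScalars K).comap V.subtype =
        ((J ^ m).restrictScalars K).comap V.subtype := congrArg OrderDual.ofDual h2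
      rw [h4] at h3
      exact h3
    · exact Ideal.pow_le_pow_right (not_le.1 hm).le hx
  have h2 : x ∈ (⨅ i : ℕ, J ^ i) := by
    rw [Ideal.mem_iInf]
    exact h1
  rw [Ideal.iInf_pow_eq_bot_of_isDomain J hJ1, Ideal.mem_bot] at h2
  exact h2

/-- the group `GL_3` of a field which is algebraic over a finite field -/
theorem algfin_mem3 (hC : ClosedE C) (K : Type) [Field K] (p : ℕ) [Fact p.Prime]
    [Algebra (ZMod p) K] [Algebra.IsAlgebraic (ZMod p) K] : C (GL (Fin 3) K) := by
  classical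
  refine Pool.Agent.Y430.SS.t_lf C hC.base _ fun E => ?_
  obtain ⟨S, hS⟩ : ∃ S : Set K, S = ⋃ g ∈ E, Set.range fun ij : Fin 3 × Fin 3 => g ij.1 ij.2 :=
    ⟨_, rfl⟩
  have hSf : S.Finite := by
    rw [hS]
    exact E.finite_toSet.biUnion fun g _ => Set.finite_range _
  have : Finite S := hSf
  have hfd : FiniteDimensional (ZMod p) (IntermediateField.adjoin (ZMod p) S) :=
    IntermediateField.finiteDimensional_adjoin fun x _ => Algebra.IsIntegral.isIntegral x
  have hfin : Finite (IntermediateField.adjoin (ZMod p) S) := Module.finite_of_finite (ZMod p)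
  obtain ⟨L, hL⟩ : ∃ L : IntermediateField (ZMod p) K, L = IntermediateField.adjoin (ZMod p) S :=
    ⟨_, rfl⟩
  rw [← hL] at hfin
  have hle : Subgroup.closure (E : Set (GL (Fin 3) K)) ≤
      (Matrix.GeneralLinearGroup.map (n := Fin 3) (algebraMap L K)).range := by
    rw [Subgroup.closure_le]
    intro g hg
    have hent : ∀ i j, g i j ∈ L := by
      intro i j
      rw [hL]
      apply IntermediateField.subset_adjoin
      rw [hS]
      exact Set.mem_biUnion hg ⟨(i, j), rfl⟩
    obtain ⟨M, hM⟩ : ∃ M : Matrix (Fin 3) (Fin 3) L, ∀ i j, algebraMap L K (M i j) = g i j :=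
      ⟨Matrix.of fun i j => ⟨g i j, hent i j⟩, fun i j => rfl⟩
    have hdet : M.det ≠ 0 := by
      intro h0
      have h1 : algebraMap L K M.det = (g : Matrix (Fin 3) (Fin 3) K).det := by
        rw [RingHom.map_det]
        congr 1
        ext i j
        exact hM i j
      rw [h0, map_zero] at h1
      have h2 : IsUnit (g : Matrix (Fin 3) (Fin 3) K).det :=
        (Matrix.isUnit_iff_isUnit_det _).1 g.isUnit
      exact h2.ne_zero h1.symm
    refine ⟨Matrix.GeneralLinearGroup.mkOfDetNeZero M hdet, ?_⟩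
    ext i j
    rw [Run7.h950.T3.map_entry]
    exact hM i j
  have hfinG : Finite (GL (Fin 3) L) := inferInstanceAs (Finite (Matrix (Fin 3) (Fin 3) L)ˣ)
  have hfr : Finite (Matrix.GeneralLinearGroup.map (n := Fin 3) (algebraMap L K)).range :=
    Set.finite_range _
  exact Finite.of_injective _ (Subgroup.inclusion_injective hle)

/-- **affine domains over algebraic extensions of finite fields** -/
theorem affine_algfin_mem3 (hC : ClosedE C) (hF : FbC C) (hcat : CatC C)
    (hsol : ∀ (S : Type) [Group S], Group.IsSolvable S → C S)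
    (K : Type) {A : Type} [Field K] (p : ℕ) [Fact p.Prime] [Algebra (ZMod p) K]
    [Algebra.IsAlgebraic (ZMod p) K] [CommRing A] [IsDomain A] [Algebra K A]
    [Algebra.FiniteType K A] {deg : A → WithBot ℤ} (h : IsDeg deg) (h0 : ∀ x, x ≠ 0 → 0 ≤ deg x)
    (hfd : ∀ n : ℕ, ∃ V : Submodule K A, FiniteDimensional K V ∧ ∀ x, deg x ≤ n → x ∈ V) :
    C (GL (Fin 3) A) := by
  have hn : IsNoetherianRing A := Algebra.FiniteType.isNoetherianRing K A
  obtain ⟨J, hJ⟩ := Ideal.exists_maximal A
  let _ : Field (A ⧸ J) := Ideal.Quotient.field J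
  have hft : Algebra.FiniteType K (A ⧸ J) :=
    Algebra.FiniteType.of_surjective (Ideal.Quotient.mkₐ K J) (Ideal.Quotient.mkₐ_surjective K J)
  have hfin : Module.Finite K (A ⧸ J) := finite_of_finite_type_of_isJacobsonRing K (A ⧸ J)
  let _ : Algebra (ZMod p) (A ⧸ J) := ((algebraMap K (A ⧸ J)).comp (algebraMap (ZMod p) K)).toAlgebra
  have : IsScalarTower (ZMod p) K (A ⧸ J) := IsScalarTower.of_algebraMap_eq fun x => rfl
  have : Algebra.IsAlgebraic (ZMod p) (A ⧸ J) := Algebra.IsAlgebraic.trans (ZMod p) K (A ⧸ J)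
  exact fin_mem3 hC hF hcat hsol K h h0 hfd J hJ.ne_top (algfin_mem3 hC (A ⧸ J) p)

end Run7.h192.T3
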