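import Pool.Agent.Run7.h909.T3.Stm

/-!
# The choice of the tree in the quotient
-/

set_option autoImplicit false

namespace Run7.h192.T3

open SimpleGraph Run7.h909.TD Run7.h909.T3

theorem z3_ne (a b c : ZMod 3) : b ≠ a → c ≠ a → b ≠ c → b = a + 1 → c = a + 2 := by
  revert a b c
  decide

theorem z3_two (a b : ZMod 3) : a ≠ b → b = a + 1 ∨ a = b + 1 := by
  revert a b
  decide

theorem z3_or (a b : ZMod 3) : a ≠ b → b ≠ a + 1 → b = a + 2 := by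
  revert a b
  decide

theorem z3_or' (a b c : ZMod 3) : b ≠ a → c ≠ a → b ≠ c → b = a + 1 ∨ c = a + 1 := by
  revert a b c
  decide

theorem z3_12 (a : ZMod 3) : a + 1 ≠ a + 2 := by
  revert a
  decide

theorem z3_12' (a : ZMod 3) : a + 1 + 2 ≠ a + 2 := by
  revert a
  decide

theorem z3_12'' (a : ZMod 3) : a + 1 + 2 = a + 2 + 1 := by ring

section

variable {V : Type} {T : SimpleGraph V} {F : Set (ℤ → V)}

theorem tg_rot (h : Tri T F) {x y z : V} (ht : Tg F x y z) : Tg F y z x := by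
  obtain ⟨φ, hφ, rfl, rfl, rfl⟩ := ht
  refine ⟨_, h.shift φ hφ 1, ?_, ?_, ?_⟩
  · show φ (0 + 1) = _
    norm_num
  · show φ (1 + 1) = _
    norm_num
  · show φ (2 + 1) = _
    exact (h.per φ hφ _ _).2 ⟨1, by norm_num⟩

theorem tg_sw (h : Tri T F) {x y z : V} (ht : Tg F x y z) : Tg F x z y := by
  obtain ⟨φ, hφ, rfl, rfl, rfl⟩ := ht
  refine ⟨_, h.refl φ hφ, ?_, ?_, ?_⟩
  · show φ (-0) = _
    norm_num
  · show φ (-1) = _
    exact (h.per φ hφ _ _).2 ⟨-1, by norm_num⟩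
  · show φ (-2) = _
    exact (h.per φ hφ _ _).2 ⟨-1, by norm_num⟩

theorem tg_12 (h : Tri T F) {x y z : V} (ht : Tg F x y z) : T.Adj x y := by
  obtain ⟨φ, hφ, rfl, rfl, rfl⟩ := ht
  have := h.adj φ hφ 0
  rwa [zero_add] at this

theorem tg_13 (h : Tri T F) {x y z : V} (ht : Tg F x y z) : T.Adj x z := tg_12 h (tg_sw h ht)

theorem tg_23 (h : Tri T F) {x y z : V} (ht : Tg F x y z) : T.Adj y z := tg_12 h (tg_rot h ht)

end

/-- levels, types and strong edges -/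
structure WD {W : Type} (T : SimpleGraph W) (F : Set (ℤ → W)) (o : W) (ℓ : W → ℕ)
    (t : W → ZMod 3) (sg : W → W → Prop) : Prop where
  tri : Tri T F
  lv : Lv T F o ℓ
  tn : ∀ x y, T.Adj x y → t x ≠ t y
  ss : ∀ a b, sg a b → sg b a
  four : ∀ a b b' z, Tg F a b z → Tg F a b' z → sg a b → sg a b' → ¬ sg a z → b = b'
  tr : ∀ a b c, Tg F a b c → sg a b → sg b c → sg a c

section

variable {W : Type} (T : SimpleGraph W) (F : Set (ℤ → W)) (ℓ : W → ℕ)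
  (t : W → ZMod 3) (sg : W → W → Prop) (d : W → W)

def Dn (a b : W) : Prop := T.Adj a b ∧ ℓ b + 1 = ℓ a

def Bad (a b : W) : Prop :=
  T.Adj a b ∧ ℓ a = ℓ b ∧ sg a b ∧ ∃ z, Tg F a b z ∧ ℓ z + 1 = ℓ a ∧ ¬ sg a z

def Out (a b : W) : Prop := Bad T F ℓ sg a b ∧ t b = t a + 1

def P1 (a : W) : Prop := ∃ b, Out T F ℓ t sg a b

/-- `b` is the parent of `a` -/
def Pr (a b : W) : Prop :=
  Out T F ℓ t sg a b ∨ (¬ P1 T F ℓ t sg a ∧ Dn T ℓ a b ∧ b = d a)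

/-- edges of the tree -/
def TE (a b : W) : Prop := Pr T F ℓ t sg d a b ∨ Pr T F ℓ t sg d b a

/-- chains -/
def chn : ℕ → W → Prop
  | 0, _ => True
  | m + 1, a => ∃ b, Out T F ℓ t sg a b ∧ chn m b

/-- horizontal paths with increasing types -/
def tp : ℕ → W → Prop
  | 0, _ => True
  | m + 1, a => ∃ b, T.Adj a b ∧ ℓ a = ℓ b ∧ t b = t a + 1 ∧ tp m b

open Classical in
/-- the length of the chain -/
noncomputable def hh (a : W) : ℕ :=
  if h : ∃ m, ¬ chn T F ℓ t sg m a then Nat.find h else 0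

def DTop (a b c : W) : Prop :=
  ℓ b + 1 = ℓ a ∧ (Pr T F ℓ t sg d a c ∨ (P1 T F ℓ t sg a ∧ ℓ c + 1 = ℓ a ∧ t b = t a + 1))

/-- `{a, b}` is the top edge of the triangle `a, b, c` -/
def Top (a b c : W) : Prop :=
  Tg F a b c ∧ ¬ TE T F ℓ t sg d a b ∧
    ((ℓ a = ℓ b ∧ ℓ c + 1 = ℓ a) ∨ DTop T F ℓ t sg d a b c ∨ DTop T F ℓ t sg d b a c)

open Classical in
/-- the rank of an edge -/
noncomputable def rk (a b : W) : ℕ ×ₗ ℕ :=
  if TE T F ℓ t sg d a b then toLex (0, 0)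
  else if ℓ a = ℓ b then toLex (2 * ℓ a + 1, 0)
  else if ℓ b < ℓ a then
    toLex (2 * ℓ a, 2 * hh T F ℓ t sg a + if t b = t a + 1 then 1 else 0)
  else toLex (2 * ℓ b, 2 * hh T F ℓ t sg b + if t a = t b + 1 then 1 else 0)

/-- the property of the choice function -/
def Ch : Prop := ∀ a, (∃ b, Dn T ℓ a b) → Dn T ℓ a (d a) ∧ ((∃ b, Dn T ℓ a b ∧ sg a b) → sg a (d a))

theorem exists_ch : ∃ d : W → W, Ch T ℓ sg d := by
  classical
  refine ⟨fun a => if h : ∃ b, Dn T ℓ a b ∧ sg a b then h.choose else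
    if h : ∃ b, Dn T ℓ a b then h.choose else a, fun a ha => ?_⟩
  by_cases h : ∃ b, Dn T ℓ a b ∧ sg a b
  · simp only [dif_pos h]
    exact ⟨h.choose_spec.1, fun _ => h.choose_spec.2⟩
  · simp only [dif_neg h, dif_pos ha]
    exact ⟨ha.choose_spec, fun h' => absurd h' h⟩

end

section

variable {W : Type} {T : SimpleGraph W} {F : Set (ℤ → W)} {o : W} {ℓ : W → ℕ}
  {t : W → ZMod 3} {sg : W → W → Prop} {d : W → W}

theorem Bad.lev {a b : W} (h : Bad T F ℓ sg a b) : ℓ a = ℓ b := h.2.1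

theorem Out.lev {a b : W} (h : Out T F ℓ t sg a b) : ℓ a = ℓ b := h.1.2.1

theorem WD.low_uniq (D : WD T F o ℓ t sg) {a b c c' : W} (h1 : Tg F a b c) (h2 : Tg F a b c')
    (h3 : ℓ c + 1 = ℓ a) (h4 : ℓ c' + 1 = ℓ a) : c = c' := by
  by_contra hne
  have h5 := D.lv.low a c c' (tg_13 D.tri h1) (tg_13 D.tri h2) h3 h4 hne
  exact D.tri.g3 a b c c' h1 h5 (tg_sw D.tri h2)

theorem WD.dn_type (D : WD T F o ℓ t sg) {a b c : W} (h1 : Dn T ℓ a b) (h2 : Dn T ℓ a c)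
    (h3 : t b = t c) : b = c := by
  by_contra hne
  exact D.tn _ _ (tg_23 D.tri (D.lv.low a b c h1.1 h2.1 h1.2 h2.2 hne)) h3

/-- the lower vertex of an outgoing edge -/
theorem WD.out_z (D : WD T F o ℓ t sg) {a b : W} (h : Out T F ℓ t sg a b) :
    ∃ z, Tg F a b z ∧ Dn T ℓ a z ∧ ¬ sg a z ∧ t z = t a + 2 := by
  obtain ⟨⟨h1, h2, h3, z, h4, h5, h6⟩, h7⟩ := h
  exact ⟨z, h4, ⟨tg_13 D.tri h4, h5⟩, h6, z3_ne _ _ _ (D.tn _ _ h1).symm
    (D.tn _ _ (tg_13 D.tri h4)).symm (D.tn _ _ (tg_23 D.tri h4)) h7⟩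

theorem WD.out_uniq (D : WD T F o ℓ t sg) {a b b' : W} (h : Out T F ℓ t sg a b)
    (h' : Out T F ℓ t sg a b') : b = b' := by
  obtain ⟨z, h1, h2, h3, h4⟩ := D.out_z h
  obtain ⟨z', h1', h2', h3', h4'⟩ := D.out_z h'
  have hz : z = z' := D.dn_type h2 h2' (h4.trans h4'.symm)
  subst hz
  exact D.four a b b' z h1 h1' h.1.2.2.1 h'.1.2.2.1 h3

theorem WD.p1_weak (D : WD T F o ℓ t sg) {a p : W} (h : P1 T F ℓ t sg a) (hp : Dn T ℓ a p) :
    ¬ sg a p := by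
  intro hs
  obtain ⟨b, hb⟩ := h
  obtain ⟨z, h1, h2, h3, h4⟩ := D.out_z hb
  have hne : p ≠ z := by
    rintro rfl
    exact h3 hs
  have h5 := D.lv.low a p z hp.1 h2.1 hp.2 h2.2 hne
  have h6 := D.four a b p z h1 h5 hb.1.2.2.1 hs h3
  have h7 := hb.lev
  have h8 := hp.2
  rw [h6] at h7
  omega

theorem WD.pr_uniq (D : WD T F o ℓ t sg) {a b b' : W} (h : Pr T F ℓ t sg d a b)
    (h' : Pr T F ℓ t sg d a b') : b = b' := by
  rcases h with h | ⟨h1, h2, h3⟩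
  · rcases h' with h' | ⟨h1', h2', h3'⟩
    · exact D.out_uniq h h'
    · exact absurd ⟨b, h⟩ h1'
  · rcases h' with h' | ⟨h1', h2', h3'⟩
    · exact absurd ⟨b', h'⟩ h1
    · rw [h3, h3']

theorem Pr.le {a b : W} (h : Pr T F ℓ t sg d a b) : ℓ b ≤ ℓ a := by
  rcases h with h | ⟨-, h2, -⟩
  · exact h.lev.ge
  · have := h2.2
    omega

theorem Pr.eq {a b : W} (h : Pr T F ℓ t sg d a b) (he : ℓ b = ℓ a) : Out T F ℓ t sg a b := by
  rcases h with h | ⟨-, h2, -⟩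
  · exact h
  · have := h2.2
    omega

theorem Pr.adj {a b : W} (h : Pr T F ℓ t sg d a b) : T.Adj a b := by
  rcases h with h | ⟨-, h2, -⟩
  · exact h.1.1
  · exact h2.1

theorem WD.desc (D : WD T F o ℓ t sg) : ∀ (m : ℕ) (a b : W), T.Adj a b → ℓ a = ℓ b →
    t b = t a + 1 → tp T ℓ t m b → ∃ z, Tg F a b z ∧ ℓ z + 1 = ℓ a ∧ tp T ℓ t m z := by
  intro m
  induction m with
  | zero =>
    intro a b h1 h2 _ _
    obtain ⟨z, h3, h4⟩ := D.lv.hor a b h1 h2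
    exact ⟨z, h3, h4, trivial⟩
  | succ m ih =>
    rintro a b h1 h2 h3 ⟨c, h4, h5, h6, h7⟩
    obtain ⟨z', h8, h9, h10⟩ := ih b c h4 h5 h6 h7
    obtain ⟨z, h11, h12⟩ := D.lv.hor a b h1 h2
    have tz : t z = t a + 2 := z3_ne _ _ _ (D.tn _ _ h1).symm
      (D.tn _ _ (tg_13 D.tri h11)).symm (D.tn _ _ (tg_23 D.tri h11)) h3
    have tz' : t z' = t b + 2 := z3_ne _ _ _ (D.tn _ _ h4).symm
      (D.tn _ _ (tg_13 D.tri h8)).symm (D.tn _ _ (tg_23 D.tri h8)) h6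
    have hne : z ≠ z' := by
      rintro rfl
      rw [tz, h3] at tz'
      exact z3_12' _ tz'.symm
    have h13 := D.lv.low b z z' (tg_23 D.tri h11) (tg_13 D.tri h8) (by omega) (by omega) hne
    refine ⟨z, h11, h12, z', tg_23 D.tri h13, by omega, ?_, h10⟩
    rw [tz', tz, h3]
    exact z3_12'' _

theorem WD.tp_le (D : WD T F o ℓ t sg) : ∀ (n m : ℕ) (a : W), ℓ a = n → tp T ℓ t m a → m ≤ n := by
  intro n
  induction n with
  | zero =>
    intro m a ha hm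
    cases m with
    | zero => exact le_rfl
    | succ m =>
      obtain ⟨b, h1, h2, -, -⟩ := hm
      have e1 := (D.lv.zero a).1 ha
      have e2 := (D.lv.zero b).1 (by omega)
      rw [e1, e2] at h1
      exact absurd h1 (T.loopless.irrefl _)
  | succ n ih =>
    intro m a ha hm
    cases m with
    | zero => exact Nat.zero_le _
    | succ m =>
      obtain ⟨b, h1, h2, h3, h4⟩ := hm
      obtain ⟨z, -, h6, h7⟩ := D.desc m a b h1 h2 h3 h4
      have := ih m z (by omega) h7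
      omega

theorem tp_of_chn : ∀ (m : ℕ) (a : W), chn T F ℓ t sg m a → tp T ℓ t m a := by
  intro m
  induction m with
  | zero => intro a _; trivial
  | succ m ih =>
    rintro a ⟨b, h1, h2⟩
    exact ⟨b, h1.1.1, h1.1.2.1, h1.2, ih b h2⟩

theorem WD.chn_ex (D : WD T F o ℓ t sg) (a : W) : ∃ m, ¬ chn T F ℓ t sg m a := by
  refine ⟨ℓ a + 1, fun h => ?_⟩
  have := D.tp_le (ℓ a) (ℓ a + 1) a rfl (tp_of_chn _ _ h)
  omega

theorem WD.hh_lt (D : WD T F o ℓ t sg) {a b : W} (h : Out T F ℓ t sg a b) :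
    hh T F ℓ t sg b < hh T F ℓ t sg a := by
  classical
  have ha := D.chn_ex a
  have hb := D.chn_ex b
  unfold hh
  rw [dif_pos ha, dif_pos hb]
  have h1 := Nat.find_spec ha
  obtain ⟨m, hm⟩ : ∃ m, Nat.find ha = m := ⟨_, rfl⟩
  rw [hm] at h1 ⊢
  cases m with
  | zero => exact absurd trivial h1
  | succ m =>
    have h2 : ¬ chn T F ℓ t sg m b := fun h3 => h1 ⟨b, h, h3⟩
    have := Nat.find_min' hb h2
    omega

theorem WD.no_flat (D : WD T F o ℓ t sg) {a b c : W} (h : Tg F a b c) (h1 : ℓ a = ℓ b)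
    (h2 : ℓ a = ℓ c) : False := by
  obtain ⟨z, h3, h4⟩ := D.lv.hor a b (tg_12 D.tri h) h1
  obtain ⟨z', h5, h6⟩ := D.lv.hor a c (tg_13 D.tri h) h2
  by_cases hz : z = z'
  · subst hz
    exact D.tri.g3 a b c z h h5 (tg_sw D.tri h3)
  · have h7 := D.lv.low a z' z (tg_13 D.tri h5) (tg_13 D.tri h3) h6 h4 (Ne.symm hz)
    rcases D.tri.g4 a b c z' z h h5 h7 (tg_sw D.tri h3) with h8 | h8
    · rw [h8] at h1
      omega
    · rw [h8] at h2
      omega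

theorem TE.symm {a b : W} (h : TE T F ℓ t sg d a b) : TE T F ℓ t sg d b a := Or.symm h

theorem WD.top_symm (D : WD T F o ℓ t sg) {a b c : W} (h : Top T F ℓ t sg d a b c) :
    Top T F ℓ t sg d b a c := by
  obtain ⟨h1, h2, h3⟩ := h
  refine ⟨tg_rot D.tri (tg_sw D.tri h1 |> fun h => tg_rot D.tri h |> fun h => h) |> fun h => ?_,
    fun h => h2 h.symm, ?_⟩
  · exact tg_sw D.tri (tg_rot D.tri h1)
  · rcases h3 with h3 | h3 | h3
    · exact Or.inl ⟨h3.1.symm, by omega⟩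
    · exact Or.inr (Or.inr h3)
    · exact Or.inr (Or.inl h3)

theorem WD.allA (D : WD T F o ℓ t sg) {a b c : W} (h : Tg F a b c) (h1 : ℓ a = ℓ b)
    (h2 : ℓ c + 1 = ℓ a) : Top T F ℓ t sg d a b c ∨ Top T F ℓ t sg d b c a ∨
      Top T F ℓ t sg d c a b := by
  by_cases ht : TE T F ℓ t sg d a b
  · rcases ht with ht | ht
    · right; right
      refine ⟨tg_rot D.tri (tg_rot D.tri h), ?_, Or.inr (Or.inr ⟨h2, Or.inl ht⟩)⟩
      rintro (h3 | h3)
      · have := h3.le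
        omega
      · have := D.pr_uniq ht h3
        subst this
        omega
    · right; left
      refine ⟨tg_rot D.tri h, ?_, Or.inr (Or.inl ⟨by omega, Or.inl ht⟩)⟩
      rintro (h3 | h3)
      · have := D.pr_uniq ht h3
        subst this
        omega
      · have := h3.le
        omega
  · exact Or.inl ⟨h, ht, Or.inl ⟨h1, h2⟩⟩

theorem WD.allB (D : WD T F o ℓ t sg) (hd : Ch T ℓ sg d) {a b c : W} (h : Tg F a b c)
    (h1 : ℓ b + 1 = ℓ a) (h2 : ℓ c + 1 = ℓ a) :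
    Top T F ℓ t sg d a b c ∨ Top T F ℓ t sg d c a b := by
  have hba : ¬ Pr T F ℓ t sg d b a := fun h3 => by
    have := h3.le
    omega
  have hca : ¬ Pr T F ℓ t sg d c a := fun h3 => by
    have := h3.le
    omega
  have hbc : b ≠ c := (tg_23 D.tri h).ne
  by_cases hp : P1 T F ℓ t sg a
  · have hno : ∀ x, ℓ x + 1 = ℓ a → ¬ Pr T F ℓ t sg d a x := by
      rintro x hx (h3 | ⟨h3, -, -⟩)
      · have := h3.lev
        omega
      · exact h3 hp
    rcases z3_or' (t a) (t b) (t c) (D.tn _ _ (tg_12 D.tri h)).symm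
      (D.tn _ _ (tg_13 D.tri h)).symm (D.tn _ _ (tg_23 D.tri h)) with h3 | h3
    · left
      refine ⟨h, ?_, Or.inr (Or.inl ⟨h1, Or.inr ⟨hp, h2, h3⟩⟩)⟩
      rintro (h4 | h4)
      · exact hno b h1 h4
      · exact hba h4
    · right
      refine ⟨tg_rot D.tri (tg_rot D.tri h), ?_, Or.inr (Or.inr ⟨h2, Or.inr ⟨hp, h1, h3⟩⟩)⟩
      rintro (h4 | h4)
      · exact hca h4
      · exact hno c h2 h4
  · obtain ⟨h3, -⟩ := hd a ⟨b, tg_12 D.tri h, h1⟩
    by_cases hb : b = d a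
    · right
      have hpr : Pr T F ℓ t sg d a b := Or.inr ⟨hp, ⟨tg_12 D.tri h, h1⟩, hb⟩
      refine ⟨tg_rot D.tri (tg_rot D.tri h), ?_, Or.inr (Or.inr ⟨h2, Or.inl hpr⟩)⟩
      rintro (h4 | h4)
      · exact hca h4
      · exact hbc (D.pr_uniq hpr h4)
    · by_cases hc : c = d a
      · left
        have hpr : Pr T F ℓ t sg d a c := Or.inr ⟨hp, ⟨tg_13 D.tri h, h2⟩, hc⟩
        refine ⟨h, ?_, Or.inr (Or.inl ⟨h1, Or.inl hpr⟩)⟩
        rintro (h4 | h4)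
        · exact hbc (D.pr_uniq h4 hpr)
        · exact hba h4
      · exfalso
        have h5 := D.lv.low a c (d a) (tg_13 D.tri h) h3.1 h2 h3.2 hc
        have h6 := D.lv.low a (d a) b h3.1 (tg_12 D.tri h) h3.2 h1 (Ne.symm hb)
        exact D.tri.g3 a b c (d a) h h5 h6

theorem WD.all (D : WD T F o ℓ t sg) (hd : Ch T ℓ sg d) {a b c : W} (h : Tg F a b c) :
    Top T F ℓ t sg d a b c ∨ Top T F ℓ t sg d b c a ∨ Top T F ℓ t sg d c a b := by
  have s1 := D.lv.step a b (tg_12 D.tri h)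
  have s2 := D.lv.step b a (tg_12 D.tri h).symm
  have s3 := D.lv.step a c (tg_13 D.tri h)
  have s4 := D.lv.step c a (tg_13 D.tri h).symm
  have s5 := D.lv.step b c (tg_23 D.tri h)
  have s6 := D.lv.step c b (tg_23 D.tri h).symm
  have hr := tg_rot D.tri h
  have hrr := tg_rot D.tri hr
  have hcase : (ℓ a = ℓ b ∧ ℓ a = ℓ c) ∨ (ℓ a = ℓ b ∧ ℓ c + 1 = ℓ a) ∨
      (ℓ b = ℓ c ∧ ℓ a + 1 = ℓ b) ∨ (ℓ c = ℓ a ∧ ℓ b + 1 = ℓ c) ∨
      (ℓ b + 1 = ℓ a ∧ ℓ c + 1 = ℓ a) ∨ (ℓ c + 1 = ℓ b ∧ ℓ a + 1 = ℓ b) ∨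
      (ℓ a + 1 = ℓ c ∧ ℓ b + 1 = ℓ c) := by omega
  rcases hcase with ⟨h1, h2⟩ | ⟨h1, h2⟩ | ⟨h1, h2⟩ | ⟨h1, h2⟩ | ⟨h1, h2⟩ | ⟨h1, h2⟩ | ⟨h1, h2⟩
  · exact (D.no_flat h h1 h2).elim
  · exact D.allA h h1 h2
  · rcases D.allA (d := d) hr h1 h2 with h3 | h3 | h3
    · exact Or.inr (Or.inl h3)
    · exact Or.inr (Or.inr h3)
    · exact Or.inl h3
  · rcases D.allA (d := d) hrr h1 h2 with h3 | h3 | h3
    · exact Or.inr (Or.inr h3)
    · exact Or.inl h3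
    · exact Or.inr (Or.inl h3)
  · rcases D.allB hd h h1 h2 with h3 | h3
    · exact Or.inl h3
    · exact Or.inr (Or.inr h3)
  · rcases D.allB hd hr h1 h2 with h3 | h3
    · exact Or.inr (Or.inl h3)
    · exact Or.inl h3
  · rcases D.allB hd hrr h1 h2 with h3 | h3
    · exact Or.inr (Or.inr h3)
    · exact Or.inr (Or.inl h3)

theorem WD.exD (D : WD T F o ℓ t sg) (hd : Ch T ℓ sg d) {a b : W} (h : T.Adj a b)
    (ht : ¬ TE T F ℓ t sg d a b) (hl : ℓ b + 1 = ℓ a) : ∃ c, Top T F ℓ t sg d a b c := by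
  by_cases hp : P1 T F ℓ t sg a
  · obtain ⟨v, hv⟩ := hp
    obtain ⟨z, h1, h2, h3, h4⟩ := D.out_z hv
    by_cases hb : t b = t a + 1
    · have hne : b ≠ z := by
        rintro rfl
        rw [hb] at h4
        exact z3_12 _ h4
      have h5 := D.lv.low a b z h h2.1 hl h2.2 hne
      exact ⟨z, h5, ht, Or.inr (Or.inl ⟨hl, Or.inr ⟨⟨v, hv⟩, h2.2, hb⟩⟩)⟩
    · have h5 := z3_or _ _ (D.tn _ _ h) hb
      have h6 : b = z := D.dn_type ⟨h, hl⟩ h2 (h5.trans h4.symm)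
      subst h6
      exact ⟨v, tg_sw D.tri h1, ht, Or.inr (Or.inl ⟨hl, Or.inl (Or.inl hv)⟩)⟩
  · obtain ⟨h3, -⟩ := hd a ⟨b, h, hl⟩
    have hne : b ≠ d a := fun e => ht (Or.inl (Or.inr ⟨hp, ⟨h, hl⟩, e⟩))
    have h5 := D.lv.low a b (d a) h h3.1 hl h3.2 hne
    exact ⟨d a, h5, ht, Or.inr (Or.inl ⟨hl, Or.inl (Or.inr ⟨hp, h3, rfl⟩)⟩)⟩

theorem WD.ex (D : WD T F o ℓ t sg) (hd : Ch T ℓ sg d) {a b : W} (h : T.Adj a b)
    (ht : ¬ TE T F ℓ t sg d a b) : ∃ c, Top T F ℓ t sg d a b c := by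
  have s1 := D.lv.step a b h
  have s2 := D.lv.step b a h.symm
  have hcase : ℓ a = ℓ b ∨ ℓ b + 1 = ℓ a ∨ ℓ a + 1 = ℓ b := by omega
  rcases hcase with hl | hl | hl
  · obtain ⟨z, h1, h2⟩ := D.lv.hor a b h hl
    exact ⟨z, h1, ht, Or.inl ⟨hl, h2⟩⟩
  · exact D.exD hd h ht hl
  · obtain ⟨c, hc⟩ := D.exD hd h.symm (fun h' => ht h'.symm) hl
    exact ⟨c, D.top_symm hc⟩

theorem WD.dtop_uniq (D : WD T F o ℓ t sg) {a b c c' : W} (h : Tg F a b c) (h' : Tg F a b c')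
    (h1 : DTop T F ℓ t sg d a b c) (h2 : DTop T F ℓ t sg d a b c') : c = c' := by
  obtain ⟨l1, h1⟩ := h1
  obtain ⟨l2, h2⟩ := h2
  have key : ∀ {x : W}, Tg F a b x → Pr T F ℓ t sg d a x → P1 T F ℓ t sg a → t b = t a + 1 →
      False := by
    intro x hx hpr hp hb
    rcases hpr with hpr | ⟨h3, -, -⟩
    · exact D.tn _ _ (tg_23 D.tri hx) (hb.trans hpr.2.symm)
    · exact h3 hp
  rcases h1 with h1 | ⟨h1, h3, h4⟩
  · rcases h2 with h2 | ⟨h2, h5, h6⟩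
    · exact D.pr_uniq h1 h2
    · exact (key h h1 h2 h6).elim
  · rcases h2 with h2 | ⟨h2, h5, h6⟩
    · exact (key h' h2 h1 h4).elim
    · refine D.dn_type ⟨tg_13 D.tri h, h3⟩ ⟨tg_13 D.tri h', h5⟩ ?_
      rw [z3_ne _ _ _ (D.tn _ _ (tg_12 D.tri h)).symm (D.tn _ _ (tg_13 D.tri h)).symm
        (D.tn _ _ (tg_23 D.tri h)) h4, z3_ne _ _ _ (D.tn _ _ (tg_12 D.tri h')).symm
        (D.tn _ _ (tg_13 D.tri h')).symm (D.tn _ _ (tg_23 D.tri h')) h4]

theorem WD.top_uniq (D : WD T F o ℓ t sg) {a b c c' : W} (h : Top T F ℓ t sg d a b c)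
    (h' : Top T F ℓ t sg d a b c') : c = c' := by
  obtain ⟨h1, h2, h3⟩ := h
  obtain ⟨h1', h2', h3'⟩ := h'
  rcases h3 with h3 | h3 | h3 <;> rcases h3' with h3' | h3' | h3'
  · exact D.low_uniq h1 h1' h3.2 h3'.2
  · have := h3'.1
    omega
  · have := h3'.1
    omega
  · have := h3.1
    omega
  · exact D.dtop_uniq h1 h1' h3 h3'
  · have := h3.1
    have := h3'.1
    omega
  · have := h3.1
    omega
  · have := h3.1
    have := h3'.1
    omega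
  · exact D.dtop_uniq (tg_sw D.tri (tg_rot D.tri h1)) (tg_sw D.tri (tg_rot D.tri h1')) h3 h3'

theorem WD.dtop_sg (D : WD T F o ℓ t sg) (hd : Ch T ℓ sg d) {a b c : W} (h : Tg F a b c)
    (h1 : DTop T F ℓ t sg d a b c) (hs : sg a b) : sg a c := by
  obtain ⟨l1, h1⟩ := h1
  have hdn : Dn T ℓ a b := ⟨tg_12 D.tri h, l1⟩
  have hp : ¬ P1 T F ℓ t sg a := fun hp => D.p1_weak hp hdn hs
  rcases h1 with h1 | ⟨h1, -, -⟩
  · rcases h1 with h1 | ⟨-, -, h4⟩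
    · exact (hp ⟨c, h1⟩).elim
    · rw [h4]
      exact (hd a ⟨b, hdn⟩).2 ⟨b, hdn, hs⟩
  · exact (hp h1).elim

theorem WD.top_sg (D : WD T F o ℓ t sg) (hd : Ch T ℓ sg d) {a b c : W}
    (h : Top T F ℓ t sg d a b c) (hs : sg a b) : sg a c ∨ sg b c := by
  obtain ⟨h1, h2, h3⟩ := h
  rcases h3 with h3 | h3 | h3
  · by_contra hcon
    push Not at hcon
    obtain ⟨n1, n2⟩ := hcon
    have hab := tg_12 D.tri h1
    rcases z3_two _ _ (D.tn _ _ hab) with h4 | h4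
    · exact h2 (Or.inl (Or.inl ⟨⟨hab, h3.1, hs, c, h1, h3.2, n1⟩, h4⟩))
    · exact h2 (Or.inr (Or.inl ⟨⟨hab.symm, h3.1.symm, D.ss _ _ hs, c,
        tg_sw D.tri (tg_rot D.tri h1), by omega, n2⟩, h4⟩))
  · exact Or.inl (D.dtop_sg hd h1 h3 hs)
  · exact Or.inr (D.dtop_sg hd (tg_sw D.tri (tg_rot D.tri h1)) h3 (D.ss _ _ hs))

theorem rk_symm (a b : W) : rk T F ℓ t sg d a b = rk T F ℓ t sg d b a := by
  unfold rk
  by_cases h : TE T F ℓ t sg d a b
  · rw [if_pos h, if_pos h.symm]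
  · have h2 : ¬ TE T F ℓ t sg d b a := fun h' => h (TE.symm h')
    rw [if_neg h, if_neg h2]
    rcases lt_trichotomy (ℓ a) (ℓ b) with hl | hl | hl
    · have n1 : ¬ ℓ a = ℓ b := by omega
      have n2 : ¬ ℓ b < ℓ a := by omega
      have n3 : ¬ ℓ b = ℓ a := by omega
      rw [if_neg n1, if_neg n2, if_neg n3, if_pos hl]
    · rw [if_pos hl, if_pos hl.symm, hl]
    · have n1 : ¬ ℓ a = ℓ b := by omega
      have n2 : ¬ ℓ a < ℓ b := by omega
      have n3 : ¬ ℓ b = ℓ a := by omega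
      rw [if_neg n1, if_pos hl, if_neg n3, if_neg n2]

theorem rk_te {a b : W} (h : TE T F ℓ t sg d a b) : rk T F ℓ t sg d a b = toLex (0, 0) := by
  unfold rk
  rw [if_pos h]

theorem rk_hor {a b : W} (h : ¬ TE T F ℓ t sg d a b) (hl : ℓ a = ℓ b) :
    rk T F ℓ t sg d a b = toLex (2 * ℓ a + 1, 0) := by
  unfold rk
  rw [if_neg h, if_pos hl]

open Classical in
theorem rk_dn {a b : W} (h : ¬ TE T F ℓ t sg d a b) (hl : ℓ b < ℓ a) :
    rk T F ℓ t sg d a b =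
      toLex (2 * ℓ a, 2 * hh T F ℓ t sg a + if t b = t a + 1 then 1 else 0) := by
  unfold rk
  rw [if_neg h, if_neg (by omega), if_pos hl]

theorem lx {a b a' b' : ℕ} (h : a < a' ∨ a = a' ∧ b < b') :
    (toLex (a, b) : ℕ ×ₗ ℕ) < toLex (a', b') := (Prod.Lex.toLex_lt_toLex).2 h

theorem WD.rk_dtop (D : WD T F o ℓ t sg) {a b c : W} (h : Tg F a b c)
    (ht : ¬ TE T F ℓ t sg d a b) (h1 : DTop T F ℓ t sg d a b c) :
    rk T F ℓ t sg d a c < rk T F ℓ t sg d a b ∧ rk T F ℓ t sg d c b < rk T F ℓ t sg d a b := by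
  classical
  obtain ⟨l1, h1⟩ := h1
  rw [rk_dn ht (by omega)]
  have tbc := D.tn _ _ (tg_23 D.tri h)
  rcases h1 with h1 | ⟨h1, h3, h4⟩
  · refine ⟨?_, ?_⟩
    · rw [rk_te (Or.inl h1)]
      exact lx (Or.inl (by omega))
    · by_cases hcb : TE T F ℓ t sg d c b
      · rw [rk_te hcb]
        exact lx (Or.inl (by omega))
      · rcases h1 with h1 | ⟨-, h2, -⟩
        · have h5 := h1.lev
          have h6 := D.hh_lt h1
          have h7 : ¬ t b = t a + 1 := fun e => tbc (e.trans h1.2.symm)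
          rw [rk_dn hcb (by omega), if_neg h7]
          refine lx (Or.inr ⟨by omega, ?_⟩)
          split_ifs <;> omega
        · have h5 := h2.2
          rw [rk_hor hcb (by omega)]
          exact lx (Or.inl (by omega))
  · have h7 : ¬ t c = t a + 1 := fun e => tbc (h4.trans e.symm)
    rw [if_pos h4]
    refine ⟨?_, ?_⟩
    · by_cases hac : TE T F ℓ t sg d a c
      · rw [rk_te hac]
        exact lx (Or.inl (by omega))
      · rw [rk_dn hac (by omega), if_neg h7]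
        exact lx (Or.inr ⟨rfl, by omega⟩)
    · by_cases hcb : TE T F ℓ t sg d c b
      · rw [rk_te hcb]
        exact lx (Or.inl (by omega))
      · rw [rk_hor hcb (by omega)]
        exact lx (Or.inl (by omega))

theorem WD.rk_top (D : WD T F o ℓ t sg) {a b c : W} (h : Top T F ℓ t sg d a b c) :
    rk T F ℓ t sg d a c < rk T F ℓ t sg d a b ∧ rk T F ℓ t sg d c b < rk T F ℓ t sg d a b := by
  classical
  obtain ⟨h1, h2, h3⟩ := h
  rcases h3 with h3 | h3 | h3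
  · rw [rk_hor h2 h3.1]
    refine ⟨?_, ?_⟩
    · by_cases hac : TE T F ℓ t sg d a c
      · rw [rk_te hac]
        exact lx (Or.inl (by omega))
      · rw [rk_dn hac (by omega)]
        exact lx (Or.inl (by omega))
    · rw [rk_symm c b]
      by_cases hac : TE T F ℓ t sg d b c
      · rw [rk_te hac]
        exact lx (Or.inl (by omega))
      · rw [rk_dn hac (by omega)]
        exact lx (Or.inl (by omega))
  · exact D.rk_dtop h1 h2 h3
  · have h4 := D.rk_dtop (tg_sw D.tri (tg_rot D.tri h1)) (fun h' => h2 h'.symm) h3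
    rw [rk_symm a b, rk_symm a c, rk_symm c b]
    exact ⟨h4.2, h4.1⟩

end

end Run7.h192.T3
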