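import Pool.Agent.Run7.h909.T3.Stm

/-!
# Piece MAIN2 of the project T3: the theorem on triangle complexes from the pieces

Copy of `Pool/Agent/Run7/h909/SQ/Coc.lean` and `Pool/Agent/Run7/h909/SQ/Main.lean` (helper909) for triangles.
-/

set_option autoImplicit false

namespace Run7.h192.T3

open SimpleGraph Run7.h909.TD Run7.h909.T3
open Pool.Agent.Y110.FJ (ClosedE)
open Pool.Agent.Y462.SS (Closed)
open Pool.Agent.R684.FP (FbC)
open Run7.h909.TT (Orb QT QF Kn Kn_dvd mem_Kn Ob qb orb_qb actQ fin_mod Jx Hj Sj Fj Fj_shift Fj_refl Aj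
  colJ prJ exists_rep fk_ext fe_cover one_inj)

section

variable {V : Type} {T : SimpleGraph V} {F : Set (ℤ → V)}

theorem per3_eq {φ : ℤ → V} (h : Per φ 3) {i j : ℤ} (hij : i % 3 = j % 3) : φ i = φ j := by
  refine (h _ _).2 ?_
  push_cast
  omega

theorem per3_ext {φ ψ : ℤ → V} (h : Per φ 3) (h' : Per ψ 3) (h0 : φ 0 = ψ 0) (h1 : φ 1 = ψ 1)
    (h2 : φ 2 = ψ 2) : φ = ψ := by
  funext i
  have hi : i % 3 = 0 ∨ i % 3 = 1 ∨ i % 3 = 2 := by omega
  rcases hi with hi | hi | hi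
  · rw [per3_eq h (j := 0) (by omega), per3_eq h' (i := i) (j := 0) (by omega), h0]
  · rw [per3_eq h (j := 1) (by omega), per3_eq h' (i := i) (j := 1) (by omega), h1]
  · rw [per3_eq h (j := 2) (by omega), per3_eq h' (i := i) (j := 2) (by omega), h2]

theorem tri_m1 (h : Tri T F) {φ : ℤ → V} (hφ : φ ∈ F) : φ (-1) = φ 2 :=
  per3_eq (h.per φ hφ) (by norm_num)

theorem tri_m2 (h : Tri T F) {φ : ℤ → V} (hφ : φ ∈ F) : φ (-2) = φ 1 :=
  per3_eq (h.per φ hφ) (by norm_num)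

/-- triangle complexes with equilateral triangles -/
theorem tri_cx (h : Tri T F) : Cx T F (fun _ _ => 1) (fun _ => Real.pi / 3) := by
  constructor
  · exact h.adj
  · exact fun φ hφ => ⟨3, le_rfl, h.per φ hφ⟩
  · exact h.shift
  · exact h.refl
  · exact fun _ _ _ => ⟨one_pos, rfl⟩
  · intro φ _
    have := Real.pi_pos
    exact ⟨by linarith, by linarith, rfl⟩
  · intro φ hφ n hn
    have hn3 : n = 3 := hn.unique (h.per φ hφ)
    subst hn3
    refine ⟨fun k => k * (2 * Real.pi / 3), ?_, ?_, ?_⟩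
    · intro k
      push_cast
      ring
    · push_cast
      ring
    · have hE : ∀ k : ℕ, Complex.exp ((((k : ℤ) : ℝ) * (2 * Real.pi / 3) : ℝ) * Complex.I) =
          Complex.exp (2 * Real.pi * Complex.I / (3 : ℕ)) ^ k := by
        intro k
        have : ((((k : ℤ) : ℝ) * (2 * Real.pi / 3) : ℝ) : ℂ) * Complex.I =
            (k : ℂ) * (2 * Real.pi * Complex.I / (3 : ℕ)) := by
          push_cast
          ring
        rw [this, Complex.exp_nat_mul]
      simp only [hE]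
      have h1 := (Complex.isPrimitiveRoot_exp 3 (by norm_num)).geom_sum_eq_zero (by norm_num)
      simpa using h1
  · intro φ hφ ψ hψ h0 h1 h2
    rw [tri_m1 h hφ, tri_m1 h hψ] at h2
    exact per3_ext (h.per φ hφ) (h.per ψ hψ) h0 h1 h2
  · intro b k hk a ha ψ hψ
    have hpi := Real.pi_pos
    have tg : ∀ i : ℤ, Tg F b (a i) (a (i + 1)) := by
      intro i
      obtain ⟨f0, c0, m0, p0⟩ := hψ i
      refine ⟨_, h.refl _ f0, ?_, m0, ?_⟩
      · show ψ i (-0) = b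
        rw [neg_zero]
        exact c0
      · show ψ i (-2) = _
        rw [tri_m2 h f0]
        exact p0
    have hk6 : 6 ≤ k := by
      by_contra hlt
      have t0 := tg 0
      have t1 := tg 1
      have t2 := tg 2
      have t3 := tg 3
      have t4 := tg 4
      norm_num at t0 t1 t2 t3 t4
      have hk' : k = 3 ∨ k = 4 ∨ k = 5 := by omega
      rcases hk' with rfl | rfl | rfl
      · have h3 : a 3 = a 0 := (ha _ _).2 ⟨1, by norm_num⟩
        rw [h3] at t2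
        exact h.g3 b _ _ _ t0 t1 t2
      · have h3 : a 4 = a 0 := (ha _ _).2 ⟨1, by norm_num⟩
        rw [h3] at t3
        rcases h.g4 b _ _ _ _ t0 t1 t2 t3 with h4 | h4
        · have := (ha _ _).1 h4
          norm_num at this
        · have := (ha _ _).1 h4
          norm_num at this
      · have h3 : a 5 = a 0 := (ha _ _).2 ⟨1, by norm_num⟩
        rw [h3] at t4
        exact h.g5 b _ _ _ _ _ t0 t1 t2 t3 t4
    rw [Finset.sum_const, Finset.card_range, nsmul_eq_mul]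
    have : (6 : ℝ) ≤ k := by exact_mod_cast hk6
    nlinarith

theorem tg_mono {F' : Set (ℤ → V)} (h : F ⊆ F') {x y z : V} (ht : Tg F x y z) : Tg F' x y z := by
  obtain ⟨φ, hφ, h1⟩ := ht
  exact ⟨φ, h hφ, h1⟩

theorem tri_cover (h : Tri T F) (o : V) : Tri (DK T F o) (FK T F o) := by
  have hx := cx_cover (tri_cx h) o
  have tg1 : ∀ {x y z : KS T F o}, Tg (FK T F o) x y z → Tg F x.1.1 y.1.1 z.1.1 := by
    rintro x y z ⟨φ, hφ, rfl, rfl, rfl⟩
    exact ⟨_, hφ.1, rfl, rfl, rfl⟩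
  have tg2 : ∀ {x y z : KS T F o}, Tg (FK T F o) x y z → (DG T F).Adj x.1 y.1 := by
    rintro x y z ⟨φ, hφ, rfl, rfl, rfl⟩
    have := hφ.2 0
    rwa [zero_add] at this
  have adj_eq : ∀ {x y z : KS T F o}, (DG T F).Adj x.1 y.1 → (DG T F).Adj x.1 z.1 →
      y.1.1 = z.1.1 → y = z := by
    intro x y z h1 h2 h3
    refine Subtype.ext (Prod.ext h3 ?_)
    rw [h1.2, h2.2, h3]
  constructor
  · exact hx.adj
  · intro φ hφ
    have h1 := per_lift (tri_cx h) (φ := fun i => (φ i).1) hφ.1 (h.per _ hφ.1) hφ.2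
    intro i j
    exact Subtype.ext_iff.trans (h1 i j)
  · exact hx.shift
  · exact hx.refl
  · intro v a b c h1 h2 h3
    exact h.g3 _ _ _ _ (tg1 h1) (tg1 h2) (tg1 h3)
  · intro v a b c d h1 h2 h3 h4
    rcases h.g4 _ _ _ _ _ (tg1 h1) (tg1 h2) (tg1 h3) (tg1 h4) with h5 | h5
    · exact Or.inl (adj_eq (tg2 h1) (tg2 h3) h5)
    · exact Or.inr (adj_eq (tg2 h2) (tg2 h4) h5)
  · intro v a b c d e h1 h2 h3 h4 h5
    exact h.g5 _ _ _ _ _ _ (tg1 h1) (tg1 h2) (tg1 h3) (tg1 h4) (tg1 h5)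

end

section

variable {G V : Type} [Group G] [MulAction G V] {T : SimpleGraph V} {F : Set (ℤ → V)}

theorem tri_sub (h : Tri T F) (i : Jx G V) : Tri (Sj T i) (Fj T F i) := by
  have hm : ∀ {x y z : V}, Tg (Fj T F i) x y z → Tg F x y z := fun ht => tg_mono (fun _ h => h.1) ht
  constructor
  · exact fun φ hφ k => hφ.2.1 k
  · exact fun φ hφ => h.per φ hφ.1
  · exact fun φ hφ k => Fj_shift h.shift i hφ k
  · exact fun φ hφ => Fj_refl h.refl i hφ
  · exact fun v a b c h1 h2 h3 => h.g3 v a b c (hm h1) (hm h2) (hm h3)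
  · exact fun v a b c d h1 h2 h3 h4 => h.g4 v a b c d (hm h1) (hm h2) (hm h3) (hm h4)
  · exact fun v a b c d e h1 h2 h3 h4 h5 =>
      h.g5 v a b c d e (hm h1) (hm h2) (hm h3) (hm h4) (hm h5)

theorem ff_cover (h : Tri T F) (hA : Ac G T F) (o : V) (i : Jx G V) :
    ∃ P : Set (ℤ → KS (Sj T i) (Fj T F i) o), P.Finite ∧
      ∀ φ ∈ FK (Sj T i) (Fj T F i) o, ∃ γ : Gam (Aj hA i) o, (fun k => γ • φ k) ∈ P := by
  classical
  obtain ⟨R, s, hR⟩ := exists_rep (Aj hA i) o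
  have hfin : {χ : ℤ → V | ∃ ψ ∈ i.2.2, ∃ r ∈ Finset.range 3, (χ = fun k => ψ (k + (r : ℕ))) ∨
      χ = fun k => ψ (-k + (r : ℕ))}.Finite := by
    refine Set.Finite.subset (s := ⋃ ψ ∈ (i.2.2 : Set (ℤ → V)), ⋃ r ∈ (Finset.range 3 : Set ℕ),
      {(fun k : ℤ => ψ (k + (r : ℕ)) : ℤ → V), (fun k : ℤ => ψ (-k + (r : ℕ)) : ℤ → V)}) ?_ ?_
    · exact Set.Finite.biUnion (Finset.finite_toSet _) fun _ _ =>
        Set.Finite.biUnion (Finset.finite_toSet _) fun _ _ => Set.toFinite _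
    · rintro χ ⟨ψ, hψ, r, hr, h1⟩
      simp only [Set.mem_iUnion]
      exact ⟨ψ, hψ, r, hr, h1⟩
  refine ⟨⋃ χ ∈ {χ : ℤ → V | ∃ ψ ∈ i.2.2, ∃ r ∈ Finset.range 3,
      (χ = fun k => ψ (k + (r : ℕ))) ∨ χ = fun k => ψ (-k + (r : ℕ))},
    {φ | φ ∈ FK (Sj T i) (Fj T F i) o ∧ φ 0 = R (χ 0) ∧ ∀ k, (φ k).1.1 = (s (χ 0))⁻¹ • χ k},
    Set.Finite.biUnion hfin ?_, ?_⟩
  · intro χ _
    refine Set.Subsingleton.finite ?_
    rintro φ ⟨h1, h2, h3⟩ φ' ⟨h1', h2', h3'⟩
    exact fk_ext h1 h1' (h2.trans h2'.symm) fun k => (h3 k).trans (h3' k).symm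
  · intro φ hφ
    obtain ⟨a1, a2, g, hg, ψ, hψ, r, h3⟩ := hφ.1
    obtain ⟨γ, h4, h5⟩ := hR (φ 0) ⟨g, hg⟩
    have hper : ∀ k l : ℤ, k % 3 = l % 3 → (φ k).1.1 = (φ l).1.1 := fun k l hkl =>
      per3_eq (h.per _ a1) hkl
    refine ⟨γ, ?_⟩
    simp only [Set.mem_iUnion]
    refine ⟨fun k => g • (φ k).1.1, ?_, (ac_cover (Aj hA i) o).face γ φ hφ, ?_, ?_⟩
    · refine ⟨ψ, hψ, (r % 3).toNat, Finset.mem_range.2 (by omega), ?_⟩
      have hr : (((r % 3).toNat : ℕ) : ℤ) = r % 3 := Int.toNat_of_nonneg (by omega)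
      rw [hr]
      rcases h3 with h3 | h3
      · left
        funext k
        have e1 := h3 (k + (r % 3 - r))
        have e2 : k + (r % 3 - r) + r = k + r % 3 := by ring
        rw [e2] at e1
        rw [← e1, hper k (k + (r % 3 - r)) (by omega)]
      · right
        funext k
        have e1 := h3 (k - (r % 3 - r))
        have e2 : -(k - (r % 3 - r)) + r = -k + r % 3 := by ring
        rw [e2] at e1
        rw [← e1, hper k (k - (r % 3 - r)) (by omega)]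
    · exact h4
    · intro k
      show (γ • φ k).1.1 = _
      rw [smulK_fst, h5, mul_smul]
      rfl

end

section

variable {H V : Type} [Group H] [MulAction H V] {T : SimpleGraph V} {F : Set (ℤ → V)}
  {f : H →* Multiplicative ℤ} {τ : V → ZMod 3}

theorem kn_gen (n : ℕ) :
    Subgroup.closure {k : Kn V f n | ∃ x : V, k • x = x} = ⊤ := by
  rw [eq_top_iff]
  have h3 := Subgroup.closure_closure_coe_preimage
    (k := {h : H | (n : ℤ) ∣ vl f h ∧ ∃ x : V, h • x = x})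
  have h4 : (⊤ : Subgroup (Kn V f n)) = Subgroup.closure
    ((fun k : Kn V f n => (k : H)) ⁻¹' {h : H | (n : ℤ) ∣ vl f h ∧ ∃ x : V, h • x = x}) :=
    h3.symm
  rw [h4]
  refine Subgroup.closure_mono ?_
  rintro k ⟨-, x, hx⟩
  exact ⟨x, hx⟩

theorem cc_dat (hQ : S_QUOT) (hN1 : S_NUM1) (hN2 : S_NUM2) (hNice : S_NICE) (D : Cc H T F f τ)
    (hg : Gd H T f) : ∃ n : ℕ, 0 < n ∧ Dat (Kn V f n) T F (qb V (Kn V f n)) τ := by
  obtain ⟨n, hn, hN, hfx⟩ := hNice hN1 hN2 H V T F f τ D hg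
  have hA : Ac (Kn V f n) T F := ⟨fun k x y h => D.ac.adj k x y h, fun k φ h => D.ac.face k φ h⟩
  obtain ⟨-, q2, q3⟩ := hQ (Kn V f n) V (Ob V (Kn V f n)) T F (qb V (Kn V f n)) D.tri hA
    (orb_qb _) hN
  exact ⟨n, hn, {
    tri := D.tri
    sc := D.sc
    ac := hA
    hq := orb_qb _
    nic := hN
    tri' := q2
    sc' := q3 D.sc (kn_gen n)
    fx := by
      rintro x y hxy ⟨k, hk, h3, h4⟩ z hz
      exact hfx x y hxy ⟨k, fun he => hk (Subtype.ext he), h3, h4⟩ z hz (Kn_dvd z.2)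
    ty := fun k x => D.ty k x
    tn := D.tn }⟩

theorem cc_free (hT : S_TREE) (D : Cc H T F f τ) {n : ℕ}
    (E : Dat (Kn V f n) T F (qb V (Kn V f n)) τ) : IsFreeGroup ↥(Kn V f n ⊓ f.ker) := by
  obtain ⟨Γ, h1, h2, h3⟩ := hT (Kn V f n) V (Ob V (Kn V f n)) T F (qb V (Kn V f n)) τ E
  refine Pool.Agent.H40R2.Zd.free_of_tree Γ h1 ?_ ?_ ?_
  · intro γ u v h
    exact h3 (⟨γ, γ.2.1⟩ : Kn V f n) u v h
  · intro γ v hv
    exact Subtype.ext (D.inj γ v hv γ.2.2)
  · rintro γ u v h ⟨h4, -⟩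
    exact E.nic.ne (⟨γ, γ.2.1⟩ : Kn V f n) u v (h2 h) h4

theorem cc_quot {C : ∀ (G : Type) [Group G], Prop} (hQ : S_QUOT) (hcat : CatC C)
    (D : Cc H T F f τ) {n : ℕ}
    (hn : 0 < n) (E : Dat (Kn V f n) T F (qb V (Kn V f n)) τ) :
    C (H ⧸ Kn V f n) := by
  classical
  letI := actQ (V := V) (Kn V f n)
  obtain ⟨o⟩ := D.sc.1.nonempty
  have hsm : ∀ (h : H) (x : V), (QuotientGroup.mk h : H ⧸ Kn V f n) • qb V (Kn V f n) x =
      qb V (Kn V f n) (h • x) := fun h x => rfl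
  have hq := orb_qb (V := V) (Kn V f n)
  have hQA := (hQ (Kn V f n) V (Ob V (Kn V f n)) T F (qb V (Kn V f n)) D.tri E.ac
    (orb_qb _) E.nic).1
  obtain ⟨P, hP, hP'⟩ := D.fe
  refine hcat (H ⧸ Kn V f n) (Ob V (Kn V f n)) (QT T (qb V (Kn V f n))) (QF F (qb V (Kn V f n)))
    (fun _ _ => 1) (fun _ => Real.pi / 3) (tri_cx E.tri') E.sc' ⟨?_, ?_⟩ ⟨fun _ _ _ _ => rfl,
    fun _ _ _ => rfl⟩ ?_ ?_ ?_
  · intro g a b hab
    obtain ⟨h, rfl⟩ := QuotientGroup.mk_surjective g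
    obtain ⟨x, y, h1, rfl, rfl⟩ := (hQA _ _).1 hab
    rw [hsm, hsm]
    exact (hQA _ _).2 ⟨_, _, D.ac.adj h x y h1, rfl, rfl⟩
  · rintro g _ ⟨φ, hφ, rfl⟩
    obtain ⟨h, rfl⟩ := QuotientGroup.mk_surjective g
    exact ⟨_, D.ac.face h φ hφ, rfl⟩
  · intro a
    obtain ⟨x, rfl⟩ := hq.surj a
    have hone : ∀ e : V × V, {b : Ob V (Kn V f n) | ∃ y, T.Adj x y ∧ qb V (Kn V f n) y = b ∧
        ∃ g : H, g • x = e.1 ∧ g • y = e.2}.Finite := by
      intro e
      by_cases hex : ∃ y0, ∃ g0 : H, g0 • x = e.1 ∧ g0 • y0 = e.2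
      · obtain ⟨y0, g0, h1, h2⟩ := hex
        refine (fin_mod (fun s : {s : H // s • x = x} => qb V (Kn V f n) (s.1 • y0))
          (fun s => vl f s.1) n hn ?_).subset ?_
        · rintro ⟨s, hs⟩ ⟨s', hs'⟩ hd
          refine (hq.eq _ _).2 ⟨⟨s' * s⁻¹, mem_Kn (x := x) (mul_fix hs' (inv_fix hs)) ?_⟩, ?_⟩
          · have hd' : (n : ℤ) ∣ vl f s - vl f s' := hd
            rw [vl_mul, vl_inv]
            have := (dvd_neg).2 hd'
            rw [neg_sub] at this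
            exact this
          · show (s' * s⁻¹) • s • y0 = s' • y0
            rw [mul_smul, inv_smul_smul]
        · rintro b ⟨y, -, rfl, g, h3, h4⟩
          refine ⟨⟨g⁻¹ * g0, ?_⟩, ?_⟩
          · rw [mul_smul, h1, ← h3, inv_smul_smul]
          · show qb V (Kn V f n) ((g⁻¹ * g0) • y0) = qb V (Kn V f n) y
            rw [mul_smul, h2, ← h4, inv_smul_smul]
      · refine Set.Finite.subset Set.finite_empty ?_
        rintro b ⟨y, -, -, g, h3, h4⟩
        exact hex ⟨y, g, h3, h4⟩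
    refine (Set.Finite.biUnion hP fun e _ => hone e).subset ?_
    intro b hb
    obtain ⟨x1, y1, h1, h2, rfl⟩ := (hQA _ _).1 hb
    obtain ⟨k, hk⟩ := (hq.eq _ _).1 h2
    have h3 := D.ac.adj k _ _ h1
    have hk' : (k : H) • x1 = x := hk
    rw [hk'] at h3
    obtain ⟨g, hg⟩ := hP' _ _ h3
    simp only [Set.mem_iUnion]
    exact ⟨_, hg, (k : H) • y1, h3, (((hq.eq _ _).2 ⟨k, rfl⟩)).symm, g, rfl, rfl⟩
  · intro a
    obtain ⟨x, rfl⟩ := hq.surj a
    have hfin : (Set.range fun s : {s : H // s • x = x} =>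
        (QuotientGroup.mk s.1 : H ⧸ Kn V f n)).Finite := by
      refine fin_mod _ (fun s => vl f s.1) n hn ?_
      rintro ⟨s, hs⟩ ⟨s', hs'⟩ hd
      refine (QuotientGroup.eq).2 (mem_Kn (x := x) (mul_fix (inv_fix hs) hs') ?_)
      have hd' : (n : ℤ) ∣ vl f s - vl f s' := hd
      rw [vl_mul, vl_inv]
      have := (dvd_neg).2 hd'
      have e : -(vl f s - vl f s') = -vl f s + vl f s' := by ring
      rw [e] at this
      exact this
    refine Set.Finite.to_subtype (s := ((MulAction.stabilizer (H ⧸ Kn V f n)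
      (qb V (Kn V f n) x) : Subgroup (H ⧸ Kn V f n)) : Set (H ⧸ Kn V f n))) (hfin.subset ?_)
    intro g hg
    obtain ⟨h, rfl⟩ := QuotientGroup.mk_surjective g
    have hg' : qb V (Kn V f n) (h • x) = qb V (Kn V f n) x := hg
    obtain ⟨k, hk⟩ := (hq.eq _ _).1 hg'
    refine ⟨⟨k * h, ?_⟩, ?_⟩
    · rw [mul_smul]
      exact hk
    · show (QuotientGroup.mk ((k : H) * h) : H ⧸ Kn V f n) = QuotientGroup.mk h
      refine (QuotientGroup.eq).2 ?_
      have : ((k : H) * h)⁻¹ * h = h⁻¹ * (k : H)⁻¹ * h⁻¹⁻¹ := by group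
      rw [this]
      exact Subgroup.Normal.conj_mem inferInstance _ (Subgroup.inv_mem _ k.2) h⁻¹
  · refine ⟨qb V (Kn V f n) '' (Prod.fst '' P ∪ {o}), ((hP.image _).union
      (Set.finite_singleton o)).image _, ?_⟩
    intro a
    obtain ⟨x, rfl⟩ := hq.surj a
    by_cases hx : x = o
    · exact ⟨1, x, Or.inr hx, (one_smul _ _).symm⟩
    · have hr := D.sc.1.preconnected x o
      rw [reachable_iff_reflTransGen] at hr
      rcases hr.cases_head with h1 | ⟨y, hxy, -⟩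
      · exact absurd h1 hx
      · obtain ⟨g, hg⟩ := hP' x y hxy
        exact ⟨QuotientGroup.mk g, g • x, Or.inl ⟨_, hg, rfl⟩, rfl⟩

theorem cc_mem0 {C : ∀ (G : Type) [Group G], Prop} (hQ : S_QUOT) (hN1 : S_NUM1) (hN2 : S_NUM2)
    (hNice : S_NICE) (hT : S_TREE) (hC : ClosedE C) (hF : FbC C) (hcat : CatC C)
    (D : Cc H T F f τ) (hg : Gd H T f) : C H := by
  obtain ⟨n, hn, E⟩ := cc_dat hQ hN1 hN2 hNice D hg
  have hfree := cc_free hT D E
  refine Pool.Agent.R684.FP.free_ext hC hF (Kn V f n ⊓ f.ker) ?_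
  refine hC.base.of_injective _ ((H ⧸ Kn V f n) × Multiplicative ℤ)
    (QuotientGroup.lift (Kn V f n ⊓ f.ker) ((QuotientGroup.mk' (Kn V f n)).prod f) ?_) ?_
    (hC.base.prod _ _ (cc_quot hQ hcat D hn E) hC.base.int)
  · rintro h ⟨h1, h2⟩
    exact Prod.ext ((QuotientGroup.eq_one_iff _).2 h1) h2
  · rw [injective_iff_map_eq_one]
    intro a ha
    obtain ⟨h, rfl⟩ := QuotientGroup.mk_surjective a
    have h1 : (QuotientGroup.mk h : H ⧸ Kn V f n) = 1 := congrArg Prod.fst ha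
    have h2 : f h = 1 := congrArg Prod.snd ha
    exact (QuotientGroup.eq_one_iff _).2 ⟨(QuotientGroup.eq_one_iff _).1 h1, h2⟩

theorem cc_mem {C : ∀ (G : Type) [Group G], Prop} (hQ : S_QUOT) (hN1 : S_NUM1) (hN2 : S_NUM2)
    (hNice : S_NICE) (hS : S_SUB) (hT : S_TREE) (hC : ClosedE C) (hF : FbC C) (hcat : CatC C)
    (D : Cc H T F f τ) : C H := by
  obtain ⟨V', _, T', F', τ', D', hg⟩ := hS hN1 hN2 H V T F f τ D
  exact cc_mem0 hQ hN1 hN2 hNice hT hC hF hcat D' hg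

end

section

variable {G V : Type} [Group G] [MulAction G V] {T : SimpleGraph V} {F : Set (ℤ → V)}
  {τ : V → ZMod 3}

/-- **actions with cyclic stabilizers** -/
theorem cyc {C : ∀ (G : Type) [Group G], Prop} (hQ : S_QUOT) (hN1 : S_NUM1) (hN2 : S_NUM2)
    (hNice : S_NICE) (hS : S_SUB) (hT : S_TREE) (hC : ClosedE C) (hF : FbC C) (hcat : CatC C)
    (h : Tri T F) (hs : SC T F) (hA : Ac G T F) (ht : ∀ (g : G) (x : V), τ (g • x) = τ x)
    (htn : ∀ x y, T.Adj x y → τ x ≠ τ y)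
    (f : G →* Multiplicative ℤ) (hi : ∀ (g : G) (x : V), g • x = x → f g = 1 → g = 1) : C G := by
  obtain ⟨o⟩ := hs.1.nonempty
  refine colJ hC.base (tri_cx h) hA hs o fun i => ?_
  refine cc_mem (T := DK (Sj T i) (Fj T F i) o) (F := FK (Sj T i) (Fj T F i) o)
    (f := f.comp (prJ hA o i)) (τ := fun z => τ z.1.1) hQ hN1 hN2 hNice hS hT hC hF hcat ?_
  exact {
    tri := tri_cover (tri_sub h i) o
    sc := sc_cover (Run7.h909.TT.Cj (tri_cx h) i) o
    ac := ac_cover (Aj hA i) o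
    inj := by
      intro γ z hγ hf
      have h1 : prH (Aj hA i) o γ • z.1.1 = z.1.1 := by rw [← smulK_fst, hγ]
      have h2 : ((prH (Aj hA i) o γ : Hj (V := V) i) : G) = 1 := hi _ _ h1 hf
      refine stab_inj (Aj hA i) o hγ (one_smul _ z) ?_
      rw [map_one]
      exact Subtype.ext h2
    fe := fe_cover hA o i
    ff := ff_cover h hA o i
    ty := by
      intro γ z
      show τ (γ • z).1.1 = τ z.1.1
      rw [smulK_fst]
      exact ht _ _
    tn := by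
      intro x y hxy
      have a1 : (DG (Sj T i) (Fj T F i)).Adj x.1 y.1 := hxy
      exact htn _ _ a1.1.1 }

/-- **the theorem on triangle complexes, from the pieces** -/
theorem main2 {C : ∀ (G : Type) [Group G], Prop} (hQ : S_QUOT) (hN1 : S_NUM1) (hN2 : S_NUM2)
    (hNice : S_NICE) (hS : S_SUB) (hT : S_TREE) (hC : ClosedE C) (hF : FbC C) (hcat : CatC C)
    (hv : Tri T F) (hs : SC T F) (hA : Ac G T F) (ht : ∀ (g : G) (x : V), τ (g • x) = τ x)
    (htn : ∀ x y, T.Adj x y → τ x ≠ τ y)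
    (h : ∀ x : V, ∃ (P : Type) (_ : Group P) (f : G →* P), C P ∧
      ∀ g : G, g • x = x → f g = 1 → g = 1) : C G := by
  classical
  obtain ⟨o⟩ := hs.1.nonempty
  refine colJ hC.base (tri_cx hv) hA hs o fun i => ?_
  have hvi := tri_cover (tri_sub hv i) o
  have hsi := sc_cover (Run7.h909.TT.Cj (tri_cx hv) i) o
  have hAi := ac_cover (Aj hA i) o
  have hti : ∀ (γ : Gam (Aj hA i) o) (z : KS (Sj T i) (Fj T F i) o),
      τ (γ • z).1.1 = τ z.1.1 := by
    intro γ z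
    rw [smulK_fst]
    exact ht _ _
  have htni : ∀ x y : KS (Sj T i) (Fj T F i) o, (DK (Sj T i) (Fj T F i) o).Adj x y →
      τ x.1.1 ≠ τ y.1.1 := by
    intro x y hxy
    have a1 : (DG (Sj T i) (Fj T F i)).Adj x.1 y.1 := hxy
    exact htn _ _ a1.1.1
  obtain ⟨P, _, f0, hP, hf0⟩ := one_inj hC.base h
    ({o} ∪ (i.2.1.image (fun e : V × V => e.1) ∪ i.2.1.image (fun e : V × V => e.2)))
  let f : Gam (Aj hA i) o →* P := f0.comp (prJ hA o i)
  have hfk : ∀ (z : KS (Sj T i) (Fj T F i) o) (γ : Gam (Aj hA i) o), γ • z = z → f γ = 1 →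
      γ = 1 := by
    intro z γ hγ hf
    have hr := KS_reach o z.2
    have hb : ∃ g : G, g • z.1.1 ∈ ({o} ∪ (i.2.1.image (fun e : V × V => e.1) ∪
        i.2.1.image (fun e : V × V => e.2)) : Finset V) := by
      rw [reachable_iff_reflTransGen] at hr
      generalize z.1.1 = x at hr
      induction hr with
      | refl => exact ⟨1, by rw [one_smul]; simp⟩
      | tail _ hbc _ =>
        obtain ⟨-, g, hg, h2⟩ := hbc
        refine ⟨g, Finset.mem_union_right _ ?_⟩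
        rcases h2 with h2 | h2
        · exact Finset.mem_union_right _ (Finset.mem_image.2 ⟨_, h2, rfl⟩)
        · exact Finset.mem_union_left _ (Finset.mem_image.2 ⟨_, h2, rfl⟩)
    obtain ⟨g, hg⟩ := hb
    have h1 : prJ hA o i γ • z.1.1 = z.1.1 := by
      have : prH (Aj hA i) o γ • z.1.1 = z.1.1 := by rw [← smulK_fst, hγ]
      exact this
    have h2 : g * prJ hA o i γ * g⁻¹ = 1 := by
      refine hf0 _ hg _ ?_ ?_
      · rw [mul_smul, mul_smul, inv_smul_smul, h1]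
      · have h3 : f0 (prJ hA o i γ) = 1 := hf
        rw [map_mul, map_mul, h3, mul_one, ← map_mul, mul_inv_cancel, map_one]
    have h4 : prJ hA o i γ = 1 := by
      have h5 : g * prJ hA o i γ = g := mul_inv_eq_one.1 h2
      exact mul_eq_left.1 h5
    refine stab_inj (Aj hA i) o hγ (one_smul _ z) ?_
    rw [map_one]
    exact Subtype.ext h4
  have hsub : ∀ (H : Subgroup (Gam (Aj hA i) o)) (κ : H →* Multiplicative ℤ),
      (∀ h : H, κ h = 1 → f (h : Gam (Aj hA i) o) = 1) → C H := by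
    intro H κ hκ
    refine cyc (T := DK (Sj T i) (Fj T F i) o) (F := FK (Sj T i) (Fj T F i) o)
      (G := H) (τ := fun z => τ z.1.1) hQ hN1 hN2 hNice hS hT hC hF hcat hvi hsi
      ⟨fun g x y hxy => hAi.adj _ x y hxy, fun g φ hφ => hAi.face _ φ hφ⟩
      (fun g z => hti (g : Gam (Aj hA i) o) z) htni κ ?_
    intro g z hg h1
    exact Subtype.ext (hfk z g hg (hκ g h1))
  refine Pool.Agent.Y529.FJ.t_ext C hC _ f.ker ?_ ?_ ?_
  · exact hsub f.ker 1 fun h _ => h.2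
  · exact hC.base.of_injective _ P (QuotientGroup.kerLift f) (QuotientGroup.kerLift_injective f) hP
  · intro g hg
    obtain ⟨κ, hκ⟩ := kap f.ker g hg
    exact hsub _ κ fun h hh => (hκ h).1 hh

end

end Run7.h192.T3
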